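import Mathlib
import Pool.Agent.V11204.FlatAlg

/-!
# The flat Brandt semirings `B₂` and `B₀` are finitely based

`Tm` (terms in `+`, `·`), `Satisfies`, `Derives` (equational deduction) and `FinitelyBased` are defined
in `Pool.Agent.V11204.FlatAlg`; `B2` and `B0` below.
-/

set_option autoImplicit false

namespace Pool.Agent.Results.MP_c3354e_al.FinitelyBased

open Pool.Agent.V11204.FlatCore Pool.Agent.V11204.FlatAlg

/-- The five-element Brandt semigroup `{a, b, ab, ba, 0}`. -/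
inductive B2 : Type
  | a | b | ab | ba | zero
  deriving DecidableEq

instance : Fintype B2 := ⟨{B2.a, B2.b, B2.ab, B2.ba, B2.zero}, by intro x; cases x <;> decide⟩

namespace B2

/-- Multiplication of `2 × 2` matrix units: `a = e₁₂`, `b = e₂₁`, `ab = e₁₁`, `ba = e₂₂`. -/
def mul : B2 → B2 → B2
  | a, b => ab
  | b, a => ba
  | ab, ab => ab
  | ab, a => a
  | a, ba => a
  | ba, ba => ba
  | ba, b => b
  | b, ab => b
  | _, _ => zero

instance : Mul B2 := ⟨mul⟩

/-- The flat addition: `x + x = x` and `x + y = 0` for `x ≠ y`. -/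
instance : Add B2 := ⟨fun x y => if x = y then x else zero⟩

end B2

instance : AIS B2 where
  mul_assoc := by decide
  add_assoc' := by decide
  add_comm' := by decide
  add_idem' := by decide
  left_distrib' := by decide
  right_distrib' := by decide

/-- The subsemiring `B₀ = {a, ab, ba, 0}` of `B₂`. -/
def B0 : Type := {x : B2 // x ≠ B2.b}

instance : DecidableEq B0 := inferInstanceAs (DecidableEq {x : B2 // x ≠ B2.b})
instance : Fintype B0 := inferInstanceAs (Fintype {x : B2 // x ≠ B2.b})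

lemma B0_mul_closed : ∀ x y : B2, x ≠ B2.b → y ≠ B2.b → x * y ≠ B2.b := by decide
lemma B0_add_closed : ∀ x y : B2, x ≠ B2.b → y ≠ B2.b → x + y ≠ B2.b := by decide

instance : Mul B0 := ⟨fun x y => ⟨x.1 * y.1, B0_mul_closed x.1 y.1 x.2 y.2⟩⟩
instance : Add B0 := ⟨fun x y => ⟨x.1 + y.1, B0_add_closed x.1 y.1 x.2 y.2⟩⟩

instance : AIS B0 where
  mul_assoc := by decide
  add_assoc' := by decide
  add_comm' := by decide
  add_idem' := by decide
  left_distrib' := by decide
  right_distrib' := by decide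

/-- The matrix units. -/
def E : Fin 2 → Fin 2 → B2
  | 0, 0 => B2.ab
  | 0, 1 => B2.a
  | 1, 0 => B2.b
  | 1, 1 => B2.ba

lemma E_inj : ∀ i j k l : Fin 2, E i j = E k l ↔ i = k ∧ j = l := by decide

lemma E_mul : ∀ x y : B2, ∀ i j : Fin 2, x * y = E i j ↔ ∃ k, x = E i k ∧ y = E k j := by decide

lemma E_add : ∀ (i j : Fin 2) (y : B2), E i j + y = E i j ↔ y = E i j := by decide

/-- The partial transformation given by an element. -/
def Rl (z : WithOne B2) (i j : Fin 2) : Prop := z = 1 ∧ i = j ∨ z = (E i j : B2)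

lemma Rl_one (i j : Fin 2) : Rl 1 i j ↔ i = j := by
  constructor
  · rintro (⟨-, h⟩ | h)
    · exact h
    · exact absurd h WithOne.one_ne_coe
  · intro h; exact Or.inl ⟨rfl, h⟩

lemma Rl_coe (x : B2) (i j : Fin 2) : Rl x i j ↔ x = E i j := by
  constructor
  · rintro (⟨h, -⟩ | h)
    · exact absurd h WithOne.coe_ne_one
    · exact WithOne.coe_inj.1 h
  · rintro rfl; exact Or.inr rfl

lemma Rl_mul (x y : WithOne B2) (i j : Fin 2) : Rl (x * y) i j ↔ ∃ k, Rl x i k ∧ Rl y k j := by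
  rcases withOne_cases x with rfl | ⟨x, rfl⟩
  · rw [one_mul]
    simp only [Rl_one]
    constructor
    · intro h; exact ⟨i, rfl, h⟩
    · rintro ⟨k, rfl, h⟩; exact h
  · rcases withOne_cases y with rfl | ⟨y, rfl⟩
    · rw [mul_one]
      simp only [Rl_one]
      constructor
      · intro h; exact ⟨j, h, rfl⟩
      · rintro ⟨k, h, rfl⟩; exact h
    · rw [← WithOne.coe_mul]
      simp only [Rl_coe]
      exact E_mul x y i j

lemma Rl_pr (s t : ℕ → Fin 2) (w : List ℕ) : ∀ i j, Rl (pr (fun n => E (s n) (t n)) w) i j ↔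
    Pth s t i w j := by
  induction w with
  | nil => intro i j; rw [pr_nil, Rl_one]; rfl
  | cons x w ih =>
    intro i j
    rw [pr_cons, Rl_mul]
    simp only [Rl_coe, E_inj, Pth, ih]
    constructor
    · rintro ⟨k, ⟨h1, rfl⟩, h2⟩; exact ⟨h1, h2⟩
    · rintro ⟨h1, h2⟩; exact ⟨t x, ⟨h1, rfl⟩, h2⟩

lemma Rl_pr' (s t : ℕ → Fin 2) {w : List ℕ} (hw : w ≠ []) (i j : Fin 2) :
    w ∈ Wd (fun n => E (s n) (t n)) (E i j) ↔ Pth s t i w j := by
  rw [← Rl_pr]
  constructor
  · rintro ⟨x, hx, hp⟩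
    rw [E_add] at hp
    rw [hx, Rl_coe]; exact hp
  · intro h
    obtain ⟨x, hx⟩ := pr_exists (fun n => E (s n) (t n)) hw
    rw [hx, Rl_coe] at h
    exact ⟨x, hx, by rw [E_add]; exact h⟩

lemma eval_eq_iff (φ : ℕ → B2) (t : Tm) (i j : Fin 2) :
    t.eval φ = E i j ↔ words t ⊆ Wd φ (E i j) := by
  rw [← le_eval', E_add]

/-- Colouring transfer. -/
lemma transfer (s c : ℕ → Fin 2) {t u : Tm}
    (h : t.eval (fun n => E (s n) (c n)) = u.eval (fun n => E (s n) (c n))) (i j : Fin 2)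
    (ht : ∀ w ∈ words t, Pth s c i w j) : ∀ w ∈ words u, Pth s c i w j := by
  have h1 : t.eval (fun n => E (s n) (c n)) = E i j := by
    rw [eval_eq_iff]
    intro w hw
    rw [Rl_pr' s c (words_ne w hw)]
    exact ht w hw
  rw [h, eval_eq_iff] at h1
  intro w hw
  rw [← Rl_pr' s c (words_ne w hw)]
  exact h1 hw

lemma pr_zero {φ : ℕ → B2} {w : List ℕ} {x : ℕ} (hx : x ∈ w) (h : φ x = B2.zero) :
    pr φ w = (B2.zero : B2) := by
  have hz : ∀ y : B2, B2.zero * y = B2.zero ∧ y * B2.zero = B2.zero := by decide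
  induction w with
  | nil => simp at hx
  | cons y w ih =>
    rw [pr_cons]
    rcases List.mem_cons.1 hx with rfl | hx
    · rw [h]
      rcases withOne_cases (pr φ w) with h1 | ⟨z, h1⟩
      · rw [h1, mul_one]
      · rw [h1, ← WithOne.coe_mul, (hz z).1]
    · rw [ih hx, ← WithOne.coe_mul, (hz _).2]

lemma pr_const {φ : ℕ → B2} {w : List ℕ} (hw : w ≠ []) (h : ∀ x ∈ w, φ x = E 0 0) :
    pr φ w = (E 0 0 : B2) := by
  induction w with
  | nil => exact absurd rfl hw
  | cons y w ih =>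
    rw [pr_cons, h y (by simp)]
    by_cases hw' : w = []
    · rw [hw', pr_nil, mul_one]
    · rw [ih hw' (fun x hx => h x (by simp [hx])), ← WithOne.coe_mul]
      rfl

/-- Content transfer. -/
lemma content {t u : Tm}
    (h : ∀ x : ℕ, t.eval (fun n => if n = x then B2.zero else E 0 0) =
      u.eval (fun n => if n = x then B2.zero else E 0 0)) :
    ∀ w ∈ words u, ∀ x ∈ w, ∃ w' ∈ words t, x ∈ w' := by
  intro w hw x hx
  by_contra hcon
  push Not at hcon
  have h1 : t.eval (fun n => if n = x then B2.zero else E 0 0) = E 0 0 := by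
    rw [eval_eq_iff]
    intro w' hw'
    refine ⟨E 0 0, pr_const (words_ne w' hw') ?_, by decide⟩
    intro y hy
    have : y ≠ x := by rintro rfl; exact hcon w' hw' hy
    simp [this]
  rw [h x, eval_eq_iff] at h1
  obtain ⟨z, hz, hz'⟩ := h1 hw
  rw [pr_zero hx (by simp)] at hz
  rw [← WithOne.coe_inj.1 hz] at hz'
  exact absurd hz' (by decide)

/-! ### the laws in `B₂` and `B₀` -/

lemma Rl_src {z : WithOne B2} (hz : z ≠ 1) {i j i' j' : Fin 2} (h : Rl z i j) (h' : Rl z i' j') :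
    i = i' ∧ j = j' := by
  rcases withOne_cases z with rfl | ⟨x, rfl⟩
  · exact absurd rfl hz
  · rw [Rl_coe] at h h'
    rw [h] at h'
    exact (E_inj _ _ _ _).1 h'

lemma E_cases : ∀ x : B2, x = B2.zero ∨ ∃ i j, x = E i j := by decide

lemma zero_add' : ∀ x : B2, B2.zero + x = B2.zero := by decide

lemma add_zero_or (x y : B2) : x + y = B2.zero ∨ (x + y = x ∧ y = x) := by
  revert x y; decide

lemma sum3 (x y z : B2) : x + y + z = B2.zero ∨ (x = y ∧ x = z ∧ x + y + z = x) := by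
  revert x y z; decide

lemma zAx_B2 : ZAx B2 := by
  intro P b c d e Q X Y hX hY x1 x2 x3 x4 h1 h2 h3 h4
  rcases sum3 x1 x2 x3 with h0 | ⟨h12, h13, hs⟩
  · rw [h0]; exact zero_add' x4
  · rw [hs]
    rcases E_cases x1 with h0 | ⟨i, j, hij⟩
    · rw [h0]; exact zero_add' x4
    · have r1 : Rl (P * Y * b) i j := by rw [h1, Rl_coe]; exact hij
      have r2 : Rl (c * X * Y * d) i j := by rw [h2, Rl_coe, ← h12]; exact hij
      have r3 : Rl (e * X * Q) i j := by rw [h3, Rl_coe, ← h13]; exact hij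
      rw [Rl_mul] at r1 r2 r3
      obtain ⟨k2, r1, hb⟩ := r1
      obtain ⟨m3, r2, hd⟩ := r2
      obtain ⟨n2, r3, hQ⟩ := r3
      rw [Rl_mul] at r1 r2 r3
      obtain ⟨k1, hP, hY1⟩ := r1
      obtain ⟨m2, r2, hY2⟩ := r2
      obtain ⟨n1, he, hX2⟩ := r3
      rw [Rl_mul] at r2
      obtain ⟨m1, hc, hX1⟩ := r2
      have hk : k1 = m2 := by
        by_cases hY0 : Y = 1
        · obtain ⟨hb1, hd1⟩ := hY hY0
          rw [hY0, Rl_one] at hY1 hY2
          rw [hb1, Rl_one] at hb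
          rw [hd1, Rl_one] at hd
          rw [hY1, hY2, hb, hd]
        · exact (Rl_src hY0 hY1 hY2).1
      have hm : m2 = n2 := by
        by_cases hX0 : X = 1
        · obtain ⟨hc1, he1⟩ := hX hX0
          rw [hX0, Rl_one] at hX1 hX2
          rw [hc1, Rl_one] at hc
          rw [he1, Rl_one] at he
          rw [← hX1, ← hX2, ← hc, ← he]
        · exact (Rl_src hX0 hX1 hX2).2
      have r4 : Rl (P * Q) i j := by
        rw [Rl_mul]
        exact ⟨k1, hP, by rw [hk, hm]; exact hQ⟩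
      rw [h4, Rl_coe] at r4
      rw [r4, hij, E_add]

/-- Inclusion of `B₀` in `B₂`. -/
lemma eval_val (φ : ℕ → B0) (t : Tm) : (t.eval φ).1 = t.eval (fun n => (φ n).1) := by
  induction t with
  | var n => rfl
  | add t u iht ihu =>
    change (t.eval φ).1 + (u.eval φ).1 = _
    rw [iht, ihu]; rfl
  | mul t u iht ihu =>
    change (t.eval φ).1 * (u.eval φ).1 = _
    rw [iht, ihu]; rfl

/-- Element of `B₀`. -/
def mk0 (x : B2) (h : x ≠ B2.b) : B0 := ⟨x, h⟩

lemma sat_B0_of_B2 {e : Tm × Tm} (h : Satisfies B2 e) : Satisfies B0 e := by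
  intro φ
  apply Subtype.ext
  rw [eval_val, eval_val]
  exact h _

/-- The relation of an element of `B₀` with identity adjoined. -/
def Rl0 (z : WithOne B0) (i j : Fin 2) : Prop := z = 1 ∧ i = j ∨ ∃ x : B0, z = x ∧ x.1 = E i j

lemma Rl0_one (i j : Fin 2) : Rl0 1 i j ↔ i = j := by
  constructor
  · rintro (⟨-, h⟩ | ⟨x, h, -⟩)
    · exact h
    · exact absurd h WithOne.one_ne_coe
  · intro h; exact Or.inl ⟨rfl, h⟩

lemma Rl0_coe (x : B0) (i j : Fin 2) : Rl0 x i j ↔ x.1 = E i j := by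
  constructor
  · rintro (⟨h, -⟩ | ⟨y, h, h'⟩)
    · exact absurd h WithOne.coe_ne_one
    · rw [WithOne.coe_inj.1 h]; exact h'
  · intro h; exact Or.inr ⟨x, rfl, h⟩

lemma E_mul_sub (x y : B0) (i j : Fin 2) : (x * y).1 = E i j ↔
    ∃ k, x.1 = E i k ∧ y.1 = E k j := by
  change x.1 * y.1 = E i j ↔ _
  exact E_mul x.1 y.1 i j

lemma Rl0_mul (x y : WithOne B0) (i j : Fin 2) :
    Rl0 (x * y) i j ↔ ∃ k, Rl0 x i k ∧ Rl0 y k j := by
  rcases withOne_cases x with rfl | ⟨x, rfl⟩
  · rw [one_mul]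
    simp only [Rl0_one]
    constructor
    · intro h; exact ⟨i, rfl, h⟩
    · rintro ⟨k, rfl, h⟩; exact h
  · rcases withOne_cases y with rfl | ⟨y, rfl⟩
    · rw [mul_one]
      simp only [Rl0_one]
      constructor
      · intro h; exact ⟨j, h, rfl⟩
      · rintro ⟨k, h, rfl⟩; exact h
    · rw [← WithOne.coe_mul]
      simp only [Rl0_coe]
      exact E_mul_sub x y i j

lemma E_mono : ∀ (x : B2) (i j : Fin 2), x ≠ B2.b → x = E i j → i ≤ j := by decide

lemma Rl0_mono {z : WithOne B0} {i j : Fin 2} (h : Rl0 z i j) : i ≤ j := by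
  rcases h with ⟨-, rfl⟩ | ⟨x, -, h⟩
  · exact le_rfl
  · exact E_mono x.1 i j x.2 h

lemma B0_cases (x : B0) : (∀ y : B0, x + y = x) ∨ ∃ i j, x.1 = E i j := by
  revert x; decide

lemma B0_add_self (x y : B0) (h : x = y) : x + y = x := by
  rw [← h]; exact AIS.add_idem' x

lemma lAx_B0 : LAx B0 := by
  intro a b c d x y x1 x2 h1 h2
  rcases B0_cases x1 with h0 | ⟨i, j, hij⟩
  · exact h0 x2
  · have r1 : Rl0 (a * x * b * y * c * x * d) i j := by rw [h1, Rl0_coe]; exact hij
    rw [Rl0_mul] at r1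
    obtain ⟨k7, r1, hd⟩ := r1
    rw [Rl0_mul] at r1
    obtain ⟨k6, r1, hx2⟩ := r1
    rw [Rl0_mul] at r1
    obtain ⟨k5, r1, hc⟩ := r1
    rw [Rl0_mul] at r1
    obtain ⟨k4, r1, hy⟩ := r1
    rw [Rl0_mul] at r1
    obtain ⟨k3, r1, hb⟩ := r1
    rw [Rl0_mul] at r1
    obtain ⟨k2, ha, hx1⟩ := r1
    have hx1' := hx1
    have hx2' := hx2
    rw [Rl0_coe] at hx1' hx2'
    rw [hx1', E_inj] at hx2'
    obtain ⟨e1, e2⟩ := hx2'
    have l1 := Rl0_mono hb
    have l2 := Rl0_mono hy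
    have l3 := Rl0_mono hc
    have l4 := Rl0_mono hx1
    have e3 : k4 = k5 := le_antisymm l2 (by
      calc k5 ≤ k6 := l3
        _ = k2 := e1.symm
        _ ≤ k3 := l4
        _ ≤ k4 := l1)
    have hyy : Rl0 y k4 k4 := by rw [e3]; rw [e3] at hy; exact hy
    have r4 : Rl0 (a * x * b * y * y * c * x * d) i j := by
      rw [Rl0_mul]
      refine ⟨k7, ?_, hd⟩
      rw [Rl0_mul]
      refine ⟨k6, ?_, hx2⟩
      rw [Rl0_mul]
      refine ⟨k5, ?_, hc⟩
      rw [Rl0_mul]
      refine ⟨k4, ?_, hy⟩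
      rw [Rl0_mul]
      refine ⟨k4, ?_, hyy⟩
      rw [Rl0_mul]
      refine ⟨k3, ?_, hb⟩
      rw [Rl0_mul]
      exact ⟨k2, ha, hx1⟩
    rw [h2, Rl0_coe] at r4
    exact B0_add_self x1 x2 (Subtype.ext (by rw [hij, r4]))

/-! ### the bases -/

/-- The basis of `B₂`. -/
def base2 : Set (Tm × Tm) := {e | e ∈ aisAx} ∪ zid '' {β | Adm β}

/-- The basis of `B₀`. -/
def base0 : Set (Tm × Tm) := base2 ∪ Set.range lid

lemma base2_finite : base2.Finite :=
  (List.finite_toSet aisAx).union ((Set.toFinite _).image _)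

lemma base0_finite : base0.Finite := base2_finite.union (Set.finite_range _)

lemma base2_sat : ∀ e ∈ base2, Satisfies B2 e := by
  rintro e (he | ⟨β, hβ, rfl⟩)
  · exact aisAx_sat B2 e he
  · exact zid_of_zAx zAx_B2 β hβ

lemma base0_sat : ∀ e ∈ base0, Satisfies B0 e := by
  rintro e (he | ⟨β, rfl⟩)
  · exact sat_B0_of_B2 (base2_sat e he)
  · exact lid_of_lAx lAx_B0 β

theorem main2 {T : Type} [AIS T] (hZ : ZAx T) {t u : Tm} (htu : Satisfies B2 (t, u)) :
    Satisfies T (t, u) := by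
  have main : ∀ (t u : Tm), Satisfies B2 (t, u) → ∀ φ : ℕ → T,
      t.eval φ + u.eval φ = t.eval φ := by
    intro t u htu φ
    rw [le_eval']
    have hA : words t ⊆ Wd φ (t.eval φ) := (le_eval' φ _ t).1 (AIS.add_idem' _)
    intro w hw
    refine core2 (closed_Wd hZ φ _) hA (words_nonempty t) (words_ne w hw)
      (content (fun x => htu _) w hw) ?_
    intro s c i j h
    exact transfer s c (htu _) i j h w hw
  intro φ
  exact antisymm' (main t u htu φ) (main u t (fun φ => (htu φ).symm) φ)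

theorem fb2 : FinitelyBased B2 := by
  refine ⟨base2, base2_finite, base2_sat, ?_⟩
  intro t u htu
  apply derives_of_Fr
  exact @main2 (Fr base2) (aisOf base2 (fun e he => Or.inl he))
    (@zAx_of_zid (Fr base2) (aisOf base2 (fun e he => Or.inl he))
      (fun β hβ => Fr_sat base2 _ (Or.inr ⟨β, hβ, rfl⟩))) t u htu

lemma sat_of_B0 {t u : Tm} (h : Satisfies B0 (t, u)) (φ : ℕ → B2) (hφ : ∀ n, φ n ≠ B2.b) :
    t.eval φ = u.eval φ := by
  have h1 : (t.eval (fun n => mk0 (φ n) (hφ n))).1 = (u.eval (fun n => mk0 (φ n) (hφ n))).1 :=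
    congrArg Subtype.val (h (fun n => mk0 (φ n) (hφ n)))
  rw [eval_val, eval_val] at h1
  exact h1

lemma E_ne : ∀ i j : Fin 2, i ≤ j → E i j ≠ B2.b := by decide

theorem main0 {T : Type} [AIS T] (hZ : ZAx T) (hL : LAx T) {t u : Tm}
    (htu : Satisfies B0 (t, u)) : Satisfies T (t, u) := by
  have main : ∀ (t u : Tm), Satisfies B0 (t, u) → ∀ φ : ℕ → T,
      t.eval φ + u.eval φ = t.eval φ := by
    intro t u htu φ
    rw [le_eval']
    have hA : words t ⊆ Wd φ (t.eval φ) := (le_eval' φ _ t).1 (AIS.add_idem' _)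
    intro w hw
    refine core0 (closed_Wd hZ φ _) (loop_Wd hL φ _) hA (words_nonempty t) (words_ne w hw)
      (content (fun x => sat_of_B0 htu _ (by
        intro n
        by_cases h : n = x
        · simp [h]
        · simp only [h, if_false]; decide)) w hw) ?_
    intro s c i j hsc h
    exact transfer s c (sat_of_B0 htu _ (fun n => E_ne _ _ (hsc n))) i j h w hw
  intro φ
  exact antisymm' (main t u htu φ) (main u t (fun φ => (htu φ).symm) φ)

theorem fb0 : FinitelyBased B0 := by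
  refine ⟨base0, base0_finite, base0_sat, ?_⟩
  intro t u htu
  apply derives_of_Fr
  exact @main0 (Fr base0) (aisOf base0 (fun e he => Or.inl (Or.inl he)))
    (@zAx_of_zid (Fr base0) (aisOf base0 (fun e he => Or.inl (Or.inl he)))
      (fun β hβ => Fr_sat base0 _ (Or.inl (Or.inr ⟨β, hβ, rfl⟩))))
    (@lAx_of_lid (Fr base0) (aisOf base0 (fun e he => Or.inl (Or.inl he)))
      (fun β => Fr_sat base0 _ (Or.inr ⟨β, rfl⟩))) t u htu

/-- Both flat semirings `B₂` and `B₀` are finitely based. -/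
theorem result : FinitelyBased B2 ∧ FinitelyBased B0 := ⟨fb2, fb0⟩

end Pool.Agent.Results.MP_c3354e_al.FinitelyBased
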